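import Mathlib

set_option autoImplicit false

namespace Pool.Agent.Helper259.Selmer

open Polynomial NumberField

/-- the Selmer polynomial -/
noncomputable def F (n : ℕ) : ℤ[X] := X ^ n - X - 1

lemma F_map {R : Type*} [CommRing R] (n : ℕ) :
    (F n).map (algebraMap ℤ R) = X ^ n - X - 1 := by
  simp [F]

lemma natDegree_aux {R : Type*} [CommRing R] [Nontrivial R] {n : ℕ} (hn : 2 ≤ n) :
    (X ^ n - X - 1 : R[X]).natDegree = n := by
  have : (X ^ n - X - 1 : R[X]) = X ^ n - (X + 1) := by ring
  rw [this]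
  have h1 : (X + 1 : R[X]).natDegree < (X ^ n : R[X]).natDegree := by
    rw [natDegree_X_pow]
    have : (X + 1 : R[X]).natDegree ≤ 1 := by
      have := natDegree_X_add_C (1 : R)
      simpa using this.le
    omega
  rw [natDegree_sub_eq_left_of_natDegree_lt h1, natDegree_X_pow]

lemma monic_aux {R : Type*} [CommRing R] [Nontrivial R] {n : ℕ} (hn : 2 ≤ n) :
    (X ^ n - X - 1 : R[X]).Monic := by
  have : (X ^ n - X - 1 : R[X]) = X ^ n - (X + 1) := by ring
  rw [this]
  apply monic_X_pow_sub
  have : (X + 1 : R[X]).degree = 1 := by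
    have := degree_X_add_C (1 : R)
    simpa using this
  rw [this]
  exact_mod_cast hn

lemma F_monic {n : ℕ} (hn : 2 ≤ n) : (F n).Monic := monic_aux hn

lemma F_natDegree {n : ℕ} (hn : 2 ≤ n) : (F n).natDegree = n := natDegree_aux hn

/-- Modulo any maximal ideal the Selmer polynomial has at most one double root. -/
lemma ncard_field {k : Type*} [Field k] {n : ℕ} (hn : 2 ≤ n)
    (hs : ((F n).map (algebraMap ℤ k)).Splits) :
    n ≤ ((F n).rootSet k).ncard + 1 := by
  classical
  set q : k[X] := (F n).map (algebraMap ℤ k) with hq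
  have hqe : q = X ^ n - X - 1 := F_map n
  have hq0 : q ≠ 0 := by
    rw [hqe]; exact (monic_aux hn).ne_zero
  have hcard : Multiset.card q.roots = n := by
    rw [← hs.natDegree_eq_card_roots, hqe, natDegree_aux hn]
  have hset : ((F n).rootSet k).ncard = q.roots.toFinset.card := by
    rw [rootSet_def, Set.ncard_coe_finset]
  rw [hset]
  -- multiplicities
  have hd1 : derivative q = (n : k[X]) * X ^ (n - 1) - 1 := by
    rw [hqe]; simp [derivative_X_pow]
  have hd2 : (derivative^[2] q) = (n : k[X]) * ((n - 1 : ℕ) : k[X]) * X ^ (n - 2) := by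
    simp only [Function.iterate_succ, Function.iterate_zero, Function.comp, id]
    rw [hd1]
    simp only [derivative_sub, derivative_mul, derivative_natCast, zero_mul, zero_add,
      derivative_X_pow, derivative_one, sub_zero, map_natCast]
    rw [show n - 1 - 1 = n - 2 by omega, mul_assoc]
  have hroot : ∀ x : k, 1 < q.rootMultiplicity x →
      x ^ n = x + 1 ∧ (n : k) * x ^ (n - 1) = 1 := by
    intro x hx
    rw [one_lt_rootMultiplicity_iff_isRoot hq0] at hx
    obtain ⟨h1, h2⟩ := hx
    rw [IsRoot.def, hqe] at h1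
    rw [IsRoot.def, hd1] at h2
    simp at h1 h2
    constructor
    · linear_combination h1
    · linear_combination h2
  have hpow : ∀ x : k, x ^ n = x * x ^ (n - 1) := by
    intro x
    rw [← pow_succ']
    congr 1
    omega
  have hlin : ∀ x : k, 1 < q.rootMultiplicity x → (1 - (n : k)) * x = n ∧ (n : k) ≠ 1 := by
    intro x hx
    obtain ⟨h1, h2⟩ := hroot x hx
    have h3 : (1 - (n : k)) * x = n := by
      have := hpow x
      linear_combination (-(n : k)) * this + (n : k) * h1 + x * (-1 : k) * h2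
    refine ⟨h3, fun h => ?_⟩
    rw [h] at h3
    simp at h3
  have hle2 : ∀ x : k, q.rootMultiplicity x ≤ 2 := by
    intro x
    by_contra hcon
    push Not at hcon
    have h1 : 1 < q.rootMultiplicity x := by omega
    obtain ⟨h3, h4⟩ := hlin x h1
    obtain ⟨h5, h6⟩ := hroot x h1
    have h2 := isRoot_iterate_derivative_of_lt_rootMultiplicity hcon
    rw [IsRoot.def, hd2] at h2
    simp only [eval_mul, eval_natCast, eval_pow, eval_X, mul_eq_zero] at h2
    have hn0 : (n : k) ≠ 0 := by
      intro h0; rw [h0] at h6; simp at h6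
    have hx0 : x ≠ 0 := by
      rintro rfl
      rw [zero_pow (by omega)] at h6
      simp at h6
    rcases h2 with (h2 | h2) | h2
    · exact hn0 h2
    · rw [Nat.cast_sub (by omega)] at h2
      apply h4
      simp at h2
      linear_combination h2
    · exact hx0 (eq_zero_of_pow_eq_zero h2)
  have huniq : ∀ x y : k, 1 < q.rootMultiplicity x → 1 < q.rootMultiplicity y → x = y := by
    intro x y hx hy
    obtain ⟨h1, h2⟩ := hlin x hx
    obtain ⟨h3, -⟩ := hlin y hy
    have h4 : (1 - (n : k)) ≠ 0 := sub_ne_zero.mpr (Ne.symm h2)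
    exact mul_left_cancel₀ h4 (h1.trans h3.symm)
  calc n = ∑ x ∈ q.roots.toFinset, q.roots.count x := by
        rw [Multiset.toFinset_sum_count_eq, hcard]
    _ ≤ ∑ x ∈ q.roots.toFinset, (1 + if 1 < q.rootMultiplicity x then 1 else 0) := by
        apply Finset.sum_le_sum
        intro x _
        rw [count_roots]
        have := hle2 x
        split_ifs with h <;> omega
    _ = q.roots.toFinset.card + (q.roots.toFinset.filter fun x => 1 < q.rootMultiplicity x).card := by
        rw [Finset.sum_add_distrib, Finset.sum_const, smul_eq_mul, mul_one, Finset.card_filter]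
    _ ≤ q.roots.toFinset.card + 1 := by
        gcongr
        rw [Finset.card_le_one]
        intro a ha b hb
        exact huniq a b (Finset.mem_filter.mp ha).2 (Finset.mem_filter.mp hb).2

section field

variable {L : Type*} [Field L] [NumberField L] {n : ℕ}

lemma splits_int (hn : 2 ≤ n) (hs : ((F n).map (algebraMap ℤ L)).Splits) :
    ((F n).map (algebraMap ℤ (𝓞 L))).Splits := by
  have hm : ((F n).map (algebraMap ℤ (𝓞 L))).map (algebraMap (𝓞 L) L) =
      (F n).map (algebraMap ℤ L) := by
    rw [Polynomial.map_map]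
    congr 1
  apply Splits.of_splits_map_of_injective (i := algebraMap (𝓞 L) L)
    (FaithfulSMul.algebraMap_injective (𝓞 L) L)
  · rw [hm]; exact hs
  · intro a ha
    rw [hm] at ha
    have hint : IsIntegral ℤ a := by
      refine ⟨F n, F_monic hn, ?_⟩
      have := (mem_roots'.mp ha).2
      rwa [IsRoot.def, eval_map] at this
    exact ⟨⟨a, hint⟩, rfl⟩

lemma separable_field (hn : 2 ≤ n) : ((F n).map (algebraMap ℤ L)).Separable := by
  have h1 : (X ^ n - X - 1 : ℚ[X]).Separable :=
    (X_pow_sub_X_sub_one_irreducible_rat (by omega)).separable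
  have h2 := h1.map (f := algebraMap ℚ L)
  rw [F_map]
  simpa using h2

lemma nodup_int (hn : 2 ≤ n) (hs : ((F n).map (algebraMap ℤ L)).Splits) :
    ((F n).map (algebraMap ℤ (𝓞 L))).roots.Nodup := by
  have hm : ((F n).map (algebraMap ℤ (𝓞 L))).map (algebraMap (𝓞 L) L) =
      (F n).map (algebraMap ℤ L) := by
    rw [Polynomial.map_map]
    congr 1
  have h1 := (splits_int hn hs).roots_map_of_injective (i := algebraMap (𝓞 L) L)
    (FaithfulSMul.algebraMap_injective (𝓞 L) L)
  have h2 : ((F n).map (algebraMap ℤ L)).roots.Nodup := nodup_roots (separable_field hn)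
  rw [← hm, h1] at h2
  exact Multiset.Nodup.of_map _ h2

lemma card_rootSet_int (hn : 2 ≤ n) (hs : ((F n).map (algebraMap ℤ L)).Splits) :
    Fintype.card ((F n).rootSet (𝓞 L)) = n := by
  classical
  have h1 := nodup_int hn hs
  have h2 := (splits_int hn hs).natDegree_eq_card_roots
  rw [F_map, natDegree_aux hn, ← F_map] at h2
  have h3 : ((F n).rootSet (𝓞 L)).ncard = n := by
    rw [rootSet_def, Set.ncard_coe_finset, Multiset.toFinset_card_of_nodup h1]
    exact h2.symm
  rw [Set.ncard_eq_toFinset_card', Set.toFinset_card] at h3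
  exact h3

lemma smul_rootSet_inj (hn : 2 ≤ n) (hs : IsSplittingField ℚ L (X ^ n - X - 1 : ℚ[X]))
    (g : Gal(L/ℚ)) (hg : ∀ i : (F n).rootSet (𝓞 L), g • i = i) : g = 1 := by
  have h1 : (g : L →ₐ[ℚ] L) = AlgHom.id ℚ L := by
    apply AlgHom.ext_of_adjoin_eq_top hs.adjoin_rootSet
    intro x hx
    have hx' : x ∈ (F n).rootSet L := by
      rw [mem_rootSet'] at hx ⊢
      refine ⟨by rw [F_map]; exact (monic_aux hn).ne_zero, ?_⟩
      have := hx.2
      simpa [F] using this
    have hint : IsIntegral ℤ x := ⟨F n, F_monic hn, by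
      have := (mem_rootSet'.mp hx').2
      rwa [aeval_def] at this⟩
    obtain ⟨y, hy⟩ : ∃ y : 𝓞 L, (y : L) = x := ⟨⟨x, hint⟩, rfl⟩
    have hmem : y ∈ (F n).rootSet (𝓞 L) := by
      rw [mem_rootSet']
      refine ⟨by rw [F_map]; exact (monic_aux hn).ne_zero, ?_⟩
      apply FaithfulSMul.algebraMap_injective (𝓞 L) L
      rw [← aeval_algebraMap_apply, map_zero]
      have := (mem_rootSet'.mp hx').2
      rw [← hy] at this
      exact this
    have h2 := congrArg (fun i : (F n).rootSet (𝓞 L) => ((i : 𝓞 L) : L)) (hg ⟨y, hmem⟩)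
    rw [← hy]
    exact h2
  ext x
  exact congrArg (fun f : L →ₐ[ℚ] L => f x) h1

/-- For `n` prime the Galois group acts on the roots as the full symmetric group. -/
theorem bijective [IsGalois ℚ L] (hn : n.Prime)
    (hs : IsSplittingField ℚ L (X ^ n - X - 1 : ℚ[X])) :
    Function.Bijective (MulAction.toPermHom (Gal(L/ℚ)) ((F n).rootSet (𝓞 L))) := by
  classical
  have hn2 := hn.two_le
  have hF : (F n).map (algebraMap ℤ L) = (X ^ n - X - 1 : ℚ[X]).map (algebraMap ℚ L) := by
    rw [F_map]; simp
  have hsF : ((F n).map (algebraMap ℤ L)).Splits := by rw [hF]; exact hs.splits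
  have hsI := splits_int hn2 hsF
  have hcard := card_rootSet_int hn2 hsF
  set φ := MulAction.toPermHom (Gal(L/ℚ)) ((F n).rootSet (𝓞 L)) with hφ
  have hinj : Function.Injective φ := by
    rw [injective_iff_map_eq_one]
    intro g hg
    apply smul_rootSet_inj hn2 hs
    intro i
    have := congrArg (fun σ : Equiv.Perm ((F n).rootSet (𝓞 L)) => σ i) hg
    simpa [hφ] using this
  -- degree
  have hroot : ∃ x : L, aeval x (X ^ n - X - 1 : ℚ[X]) = 0 := by
    obtain ⟨x, hx⟩ := hs.splits.exists_eval_eq_zero (by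
      rw [degree_map, degree_eq_natDegree (monic_aux hn2).ne_zero, natDegree_aux hn2]
      exact_mod_cast hn.ne_zero)
    exact ⟨x, by rwa [eval_map, ← aeval_def] at hx⟩
  have hdvd : n ∣ Module.finrank ℚ L := by
    obtain ⟨x, hx⟩ := hroot
    have hmin : minpoly ℚ x = X ^ n - X - 1 :=
      (minpoly.eq_of_irreducible_of_monic (X_pow_sub_X_sub_one_irreducible_rat (by omega)) hx
        (monic_aux hn2)).symm
    have h1 : (minpoly ℚ x).natDegree ∣ Module.finrank ℚ L := minpoly.degree_dvd
      (IsIntegral.of_finite ℚ x)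
    rwa [hmin, natDegree_aux hn2] at h1
  have hfr : Module.finrank ℚ L ≠ 1 := by
    intro h
    rw [h] at hdvd
    have := Nat.le_of_dvd one_pos hdvd
    omega
  -- a ramified prime
  obtain ⟨P, hP, hPr⟩ := NumberField.exists_not_isUnramifiedAt_int (K := L) (𝒪 := 𝓞 L) hfr
  have hPr' : Nat.card (P.inertia (Gal(L/ℚ))) ≠ 1 := by
    rw [Ideal.card_inertia_eq_ramificationIdxIn (P.under ℤ) P,
      Ideal.ramificationIdxIn_eq_ramificationIdx (P.under ℤ) P (Gal(L/ℚ))]
    rwa [Ne, Ideal.ramificationIdx_eq_one_iff]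
  obtain ⟨g, hg, hg1⟩ : ∃ g ∈ P.inertia (Gal(L/ℚ)), g ≠ 1 := by
    by_contra hcon
    push Not at hcon
    apply hPr'
    rw [(Subgroup.eq_bot_iff_forall _).mpr hcon]
    simp
  have hcol : ((F n).rootSet (𝓞 L)).ncard ≤ ((F n).rootSet (𝓞 L ⧸ P)).ncard + 1 := by
    let _ := Ideal.Quotient.field P
    have h1 : ((F n).map (algebraMap ℤ (𝓞 L ⧸ P))).Splits := by
      have := hsI.map (Ideal.Quotient.mk P)
      rw [Polynomial.map_map] at this
      convert this using 2
      exact RingHom.ext_int _ _
    have h2 := ncard_field hn2 h1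
    have h3 : ((F n).rootSet (𝓞 L)).ncard = n := by
      rw [Set.ncard_eq_toFinset_card', Set.toFinset_card, hcard]
    rw [h3]
    exact h2
  have hsw := (hsI.toPermHom_apply_eq_one_or_isSwap_of_ncard_le_of_mem_inertia P hcol g hg)
  have hsw' : (φ g).IsSwap := hsw.resolve_left fun h => hg1 (hinj (by rw [map_one]; exact h))
  have htop : φ.range = ⊤ := by
    apply Equiv.Perm.subgroup_eq_top_of_swap_mem (τ := φ g)
    · rw [hcard]; exact hn
    · rw [hcard, Fintype.card_eq_nat_card,
        ← Nat.card_congr (MonoidHom.ofInjective hinj).toEquiv, IsGalois.card_aut_eq_finrank]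
      exact hdvd
    · exact ⟨g, rfl⟩
    · exact hsw'
  exact ⟨hinj, MonoidHom.range_eq_top.mp htop⟩

end field

end Pool.Agent.Helper259.Selmer
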